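import Pool.Agent.H53.ZhG

set_option autoImplicit false

namespace Pool.Agent.Results.MP_a839f6_an.ZtoR

open Filter Topology MeasureTheory

/-- plurisubharmonic on `ℂⁿ`: upper semicontinuous, values in `[-∞,∞)`, not identically `-∞`,
and subharmonic on every complex line (a harmonic polynomial majorant `Re h` on the boundary of a
disc is a majorant on the disc) -/
def IsPsh {n : ℕ} (u : (Fin n → ℂ) → EReal) : Prop :=
  UpperSemicontinuous u ∧ (∀ z, u z ≠ ⊤) ∧ (∃ z, u z ≠ ⊥) ∧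
  ∀ (a w : Fin n → ℂ) (h : Polynomial ℂ),
    (∀ t : ℂ, ‖t‖ = 1 → u (a + t • w) ≤ (((h.eval t).re : ℝ) : EReal)) →
    ∀ t : ℂ, ‖t‖ ≤ 1 → u (a + t • w) ≤ (((h.eval t).re : ℝ) : EReal)

/-- the Lelong class -/
def Lelong {n : ℕ} (u : (Fin n → ℂ) → EReal) : Prop :=
  IsPsh u ∧ ∃ c : ℝ, ∀ z, u z ≤ ((Real.posLog ‖z‖ + c : ℝ) : EReal)

/-- the extremal function `V_K` -/
noncomputable def extV {n : ℕ} (K : Set (Fin n → ℂ)) (z : Fin n → ℂ) : EReal :=
  ⨆ (u : (Fin n → ℂ) → EReal) (_ : Lelong u ∧ ∀ x ∈ K, u x ≤ 0), u z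

/-- its upper semicontinuous regularization `V_K^*` -/
noncomputable def extVstar {n : ℕ} (K : Set (Fin n → ℂ)) (z : Fin n → ℂ) : EReal :=
  limsup (extV K) (𝓝 z)

/-- exponents of the monomials of degree at most `k` -/
abbrev Idx (n k : ℕ) := {α : Fin n → Fin (k+1) // ∑ i, (α i : ℕ) ≤ k}

/-- `VDM_k` -/
noncomputable def VDM (n k : ℕ) (x : Idx n k → Fin n → ℂ) : ℂ :=
  Matrix.det (Matrix.of fun a b : Idx n k => ∏ i, x a i ^ ((b.1 i : ℕ)))

/-- `l_k`, the sum of the degrees of the monomials -/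
noncomputable def lk (n k : ℕ) : ℝ := ∑ a : Idx n k, ∑ i, ((a.1 i : ℕ) : ℝ)

/-- condition (Z) -/
def CondZ {n : ℕ} (K : Set (Fin n → ℂ)) (μ : Measure (Fin n → ℂ)) : Prop :=
  ∃ δ : ℝ,
    Tendsto (fun k : ℕ => (sSup {s : ℝ | ∃ x : Idx n k → Fin n → ℂ, (∀ a, x a ∈ K) ∧
      s = ‖VDM n k x‖}) ^ ((1 : ℝ) / lk n k)) atTop (𝓝 δ) ∧
    Tendsto (fun k : ℕ => (∫ x, ‖VDM n k x‖ ^ 2 ∂(Measure.pi fun _ : Idx n k => μ)) ^
      ((1 : ℝ) / (2 * lk n k))) atTop (𝓝 δ)

/-- condition (R) -/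
def CondR {n : ℕ} (K : Set (Fin n → ℂ)) (μ : Measure (Fin n → ℂ)) : Prop :=
  ∀ p : ℕ → MvPolynomial (Fin n) ℂ, (∀ j, p j ≠ 0) →
    Tendsto (fun j => (p j).totalDegree) atTop atTop → ∀ z : Fin n → ℂ,
    limsup (fun j => (ENNReal.ofReal ‖MvPolynomial.eval z (p j)‖ /
        ENNReal.ofReal (√(∫ y, ‖MvPolynomial.eval y (p j)‖ ^ 2 ∂μ))) ^
          ((1 : ℝ) / (p j).totalDegree)) atTop ≤ EReal.exp (extVstar K z)

open Pool.Agent.H53.Zh MvPolynomial

/-- the normalised logarithm of a polynomial -/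
noncomputable def lp {n : ℕ} (k : ℕ) (p : MvPolynomial (Fin n) ℂ) (z : Fin n → ℂ) : EReal :=
  ENNReal.log (ENNReal.ofReal (‖eval z p‖ ^ ((1:ℝ) / k)))

theorem lp_le_iff {n k : ℕ} (hk : 1 ≤ k) (p : MvPolynomial (Fin n) ℂ) (z : Fin n → ℂ) (r : ℝ) :
    lp k p z ≤ (r : EReal) ↔ ‖eval z p‖ ≤ Real.exp (k * r) := by
  have hk' : (0:ℝ) < k := by exact_mod_cast hk
  unfold lp
  rw [← EReal.log_exp (r : EReal), ENNReal.log_le_log_iff, EReal.exp_coe,
    ENNReal.ofReal_le_ofReal_iff (Real.exp_pos _).le, one_div,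
    Real.rpow_inv_le_iff_of_pos (norm_nonneg _) (Real.exp_pos _).le hk', ← Real.exp_mul,
    mul_comm]

theorem lp_eq {n k : ℕ} (p : MvPolynomial (Fin n) ℂ) (z : Fin n → ℂ) (h : eval z p ≠ 0) :
    lp k p z = ((Real.log ‖eval z p‖ / k : ℝ) : EReal) := by
  have h0 : 0 < ‖eval z p‖ := norm_pos_iff.2 h
  unfold lp
  rw [ENNReal.log_ofReal_of_pos (Real.rpow_pos_of_pos h0 _), Real.log_rpow h0,
    one_div_mul_eq_div]

theorem lelong_lp {n k : ℕ} (hk : 1 ≤ k) (p : MvPolynomial (Fin n) ℂ) (hp : p.totalDegree ≤ k)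
    (z0 : Fin n → ℂ) (h0 : eval z0 p ≠ 0) : Lelong (lp k p) := by
  have hk' : (0:ℝ) < k := by exact_mod_cast hk
  refine ⟨⟨?_, ?_, ⟨z0, ?_⟩, ?_⟩, ?_⟩
  · refine Continuous.upperSemicontinuous ?_
    refine ENNReal.continuous_log.comp (ENNReal.continuous_ofReal.comp ?_)
    exact ((MvPolynomial.continuous_eval p).norm).rpow_const fun _ => Or.inr (by positivity)
  · intro z
    unfold lp
    rw [Ne, ENNReal.log_eq_top_iff]
    exact ENNReal.ofReal_ne_top
  · rw [lp_eq p z0 h0]; exact EReal.coe_ne_bot _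
  · intro a w h hb t ht
    simp only [lp_le_iff hk] at hb ⊢
    let F : ℂ → ℂ := fun t => (onLine a w p).eval t * Complex.exp (-(k * h.eval t))
    have hF : ∀ t, ‖F t‖ = ‖eval (a + t • w) p‖ * Real.exp (-(k * (h.eval t).re)) := fun t => by
      simp [F, eval_onLine, Complex.norm_exp]
    have hd : Differentiable ℂ F := by
      have h1 := (onLine a w p).differentiable
      have h2 := h.differentiable
      simp only [F]
      fun_prop
    have := Complex.norm_le_of_forall_mem_frontier_norm_le (U := Metric.ball (0:ℂ) 1)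
      Metric.isBounded_ball hd.diffContOnCl (C := 1) (fun s hs => by
        rw [frontier_ball _ one_ne_zero] at hs
        rw [hF, Real.exp_neg, mul_inv_le_iff₀ (Real.exp_pos _), one_mul]
        exact hb s (by simpa using hs)) (z := t)
      (by rw [closure_ball _ one_ne_zero]; simpa using ht)
    rwa [hF, Real.exp_neg, mul_inv_le_iff₀ (Real.exp_pos _), one_mul] at this
  · set A := ∑ b : Ix n k, ‖coeff (toF b) p‖ + 1 with hA
    have hA0 : 0 < A := by positivity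
    refine ⟨Real.log A / k, fun z => ?_⟩
    rw [lp_le_iff hk, mul_add, Real.exp_add, mul_div_cancel₀ _ hk'.ne', Real.exp_log hA0,
      Real.exp_nat_mul, Real.posLog_eq_log_max_one (norm_nonneg _),
      Real.exp_log (by positivity), eval_eq_sum p hp]
    have h1 : (1:ℝ) ≤ max 1 ‖z‖ := le_max_left _ _
    refine (norm_sum_le _ _).trans ?_
    rw [hA, mul_add, Finset.mul_sum]
    refine le_add_of_le_of_nonneg (Finset.sum_le_sum fun b _ => ?_) (by positivity)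
    rw [norm_mul, mul_comm]
    refine mul_le_mul_of_nonneg_right ?_ (norm_nonneg _)
    unfold mono
    rw [norm_prod]
    calc ∏ i, ‖z i ^ (b.1 i : ℕ)‖ ≤ ∏ i, (max 1 ‖z‖) ^ (b.1 i : ℕ) :=
          Finset.prod_le_prod (fun _ _ => norm_nonneg _) fun i _ => by
            rw [norm_pow]
            exact pow_le_pow_left₀ (norm_nonneg _)
              ((norm_le_pi_norm z i).trans (le_max_right _ _)) _
      _ = (max 1 ‖z‖) ^ (∑ i, (b.1 i : ℕ)) := Finset.prod_pow_eq_pow_sum _ _ _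
      _ ≤ _ := pow_le_pow_right₀ h1 b.2

theorem le_extV {n : ℕ} (K : Set (Fin n → ℂ)) (z : Fin n → ℂ) (t : ℝ) (ht : t ∈ extSet K z) :
    (t : EReal) ≤ extV K z := by
  have key : ∀ (k : ℕ) (p : MvPolynomial (Fin n) ℂ), 1 ≤ k → p.totalDegree ≤ k →
      (∀ x ∈ K, ‖eval x p‖ ≤ 1) → eval z p ≠ 0 →
      ((Real.log ‖eval z p‖ / k : ℝ) : EReal) ≤ extV K z := by
    intro k p hk hp hb h0
    rw [← lp_eq p z h0]
    refine le_iSup₂_of_le (f := fun (u : (Fin n → ℂ) → EReal)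
      (_ : Lelong u ∧ ∀ x ∈ K, u x ≤ 0) => u z) (lp k p)
      ⟨lelong_lp hk p hp z h0, fun x hx => ?_⟩ le_rfl
    rw [← EReal.coe_zero, lp_le_iff hk]
    simpa using hb x hx
  obtain ⟨k, hk, p, hp, hb, rfl⟩ := ht
  by_cases h0 : eval z p = 0
  · have := key 1 1 le_rfl (by simp) (by simp) (by simp)
    simpa [h0] using this
  · exact key k p hk hp hb h0

/-- (Z) implies (R) for every compact `K ⊆ ℂⁿ` and every finite measure carried by `K` -/
theorem result (n : ℕ) (hn : 1 ≤ n) (K : Set (Fin n → ℂ)) (hK : IsCompact K)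
    (μ : Measure (Fin n → ℂ)) [IsFiniteMeasure μ] (hμ : μ Kᶜ = 0) (hZ : CondZ K μ) :
    CondR K μ := by
  intro p hp0 hdeg z
  rw [← ENNReal.log_le_log_iff, EReal.log_exp, ← EReal.le_of_forall_lt_iff_le]
  intro b hb
  rw [← EReal.log_exp (b : EReal), ENNReal.log_le_log_iff, EReal.exp_coe]
  obtain ⟨u, hu1, hu2⟩ := EReal.lt_iff_exists_real_btwn.1 hb
  have hub : u < b := by exact_mod_cast hu2
  obtain ⟨ρ, hρ, hball⟩ := Metric.nhds_basis_closedBall.eventually_iff.1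
    (eventually_lt_of_limsup_lt hu1)
  have hup : ∀ y ∈ Metric.closedBall z ρ, u ∈ upperBounds (extSet K y) := fun y hy t ht => by
    have := (le_extV K y t ht).trans (hball hy).le
    exact_mod_cast this
  have hloc : LocB K z ρ u := locB_of_bdd hup
  have hu0 : 0 ≤ u := by
    have := hup z (Metric.mem_closedBall_self hρ.le) ⟨1, le_rfl, 1, by simp, by simp, rfl⟩
    simpa using this
  obtain ⟨D, hD, h⟩ := hloc.coer hρ
  obtain ⟨L, hL⟩ := logVV_tendsto hn hK hD h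
  have hVV : Tendsto (fun k : ℕ => VV n k K ^ ((1:ℝ) / ll n k)) atTop (𝓝 (Real.exp L)) :=
    ((Real.continuous_exp.tendsto L).comp hL).congr fun k => (rpow_eq_exp (VV_pos hK h k)).symm
  obtain ⟨d, hd1, hd2⟩ := hZ
  change Tendsto (fun k : ℕ => VV n k K ^ ((1:ℝ) / ll n k)) atTop (𝓝 d) at hd1
  change Tendsto (fun k : ℕ => ZZ n k μ ^ ((1:ℝ) / (2 * ll n k))) atTop (𝓝 d) at hd2
  rw [tendsto_nhds_unique hd1 hVV] at hd2
  obtain ⟨hZ0, hZ⟩ := tendsto_log_of_rpow (fun k => ZZ_nonneg k μ)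
    ((ll_pos hn).mono fun k hk => by positivity) hd2
  obtain ⟨R0, hR0⟩ := hK.isBounded.exists_norm_le
  have hmain := main_bound hn hK h hμ hL hZ hZ0 ρ (|R0| + ‖z‖ + 1) u b hρ (by positivity) hu0 hub
  refine limsup_le_of_le (by isBoundedDefault) ?_
  filter_upwards [hdeg.eventually hmain, hdeg.eventually (eventually_ge_atTop 1)] with j hj hj1
  have h1 := hj z hloc (fun y hy => by
    have := norm_sub_le y z
    linarith [hR0 y hy, le_abs_self R0]) (p j) le_rfl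
  have hk' : (0:ℝ) < (p j).totalDegree := by exact_mod_cast hj1
  have h2 : ‖eval z (p j)‖ ≤ Real.exp (b * (p j).totalDegree) *
      √(∫ y, ‖eval y (p j)‖ ^ 2 ∂μ) := by
    have := Real.sqrt_le_sqrt h1
    rwa [Real.sqrt_sq (norm_nonneg _), Real.sqrt_mul (sq_nonneg _),
      Real.sqrt_sq (Real.exp_pos _).le] at this
  have h3 : ENNReal.ofReal ‖eval z (p j)‖ / ENNReal.ofReal (√(∫ y, ‖eval y (p j)‖ ^ 2 ∂μ)) ≤
      ENNReal.ofReal (Real.exp (b * (p j).totalDegree)) := by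
    apply ENNReal.div_le_of_le_mul
    rw [← ENNReal.ofReal_mul (Real.exp_pos _).le]
    exact ENNReal.ofReal_le_ofReal h2
  refine (ENNReal.rpow_le_rpow h3 (by positivity)).trans (le_of_eq ?_)
  rw [ENNReal.ofReal_rpow_of_pos (Real.exp_pos _), ← Real.exp_mul]
  congr 2
  field_simp

end Pool.Agent.Results.MP_a839f6_an.ZtoR
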